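import Mathlib

/-!
# MP_2b4a1d_al, Q1: `X_3` is nonzero in `Z_n` for every `n ≥ 3`

The set of `n ≥ 3` with `X_3 = 0` in `Z_n` is empty.  The permutation module of `B_n` (on which
`σ_i` swaps the basis vectors `e_i`, `e_{i+1}`) satisfies all the relations
`G_k X_k = F_k X_k`, and `X_3` acts on it by a nonzero operator.
-/

namespace Pool.Agent.Results.MP_2b4a1d_al.X3NeverZero

/-- Index set of the Artin generators `σ_1, …, σ_{n-1}` of `B_n`. -/
abbrev Idx (n : ℕ) : Type := {i : ℕ // 1 ≤ i ∧ i + 1 ≤ n}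

/-- The Artin relators of the braid group `B_n`. -/
def artin (n : ℕ) : Set (FreeGroup (Idx n)) :=
  {r | (∃ i j : Idx n, i.1 + 2 ≤ j.1 ∧
      r = FreeGroup.of i * FreeGroup.of j * (FreeGroup.of j * FreeGroup.of i)⁻¹) ∨
    (∃ i j : Idx n, j.1 = i.1 + 1 ∧
      r = FreeGroup.of i * FreeGroup.of j * FreeGroup.of i *
        (FreeGroup.of j * FreeGroup.of i * FreeGroup.of j)⁻¹)}

/-- The braid group on `n` strands. -/
abbrev B (n : ℕ) : Type := PresentedGroup (artin n)

/-- The Artin generator `σ_i` of `B_n`, for `1 ≤ i ≤ n - 1` (only these indices are ever used;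
outside this range the value is `1`). -/
def σ (n i : ℕ) : B n :=
  if h : 1 ≤ i ∧ i + 1 ≤ n then PresentedGroup.of (⟨i, h⟩ : Idx n) else 1

/-- `σ_{i…j} = σ_i σ_{i+1} ⋯ σ_j` (for `i ≤ j`). -/
def up (n i j : ℕ) : B n := ((List.range' i (j + 1 - i)).map (σ n)).prod

/-- `σ_{j…i} = σ_j σ_{j-1} ⋯ σ_i` (for `i ≤ j`). -/
def down (n j i : ℕ) : B n := ((List.range' i (j + 1 - i)).reverse.map (σ n)).prod

variable {K : Type*} [CommRing K]

/-- A braid as an element of the group algebra `K B_n`. -/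
noncomputable abbrev br (K : Type*) [CommRing K] (n : ℕ) (g : B n) : MonoidAlgebra K (B n) :=
  MonoidAlgebra.of K (B n) g

/-- `E_j = q^j (σ_{j…1})⁻¹ - σ_{1…j}`. -/
noncomputable def E (n : ℕ) (q : K) (j : ℕ) : MonoidAlgebra K (B n) :=
  q ^ j • br K n (down n j 1)⁻¹ - br K n (up n 1 j)

/-- `F_k = q^{k-1} (σ_{k…1})⁻¹ - σ_{1…k}`. -/
noncomputable def F (n : ℕ) (q : K) (k : ℕ) : MonoidAlgebra K (B n) :=
  q ^ (k - 1) • br K n (down n k 1)⁻¹ - br K n (up n 1 k)

/-- `G_2 = q σ_2⁻¹ + 1 - q - σ_2` and `G_k = q^{k-1} (σ_{k…2})⁻¹ - σ_{2…k}` for `k ≥ 3`. -/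
noncomputable def G (n : ℕ) (q : K) (k : ℕ) : MonoidAlgebra K (B n) :=
  if k = 2 then q • br K n (σ n 2)⁻¹ + 1 - q • 1 - br K n (σ n 2)
  else q ^ (k - 1) • br K n (down n k 2)⁻¹ - br K n (up n 2 k)

/-- `X_2 = q σ_1⁻¹ + 1 - q - σ_1` and `X_k = E_{k-1} X_{k-1}` for `k ≥ 3` (the values at
`k = 0, 1` are not used). -/
noncomputable def X (n : ℕ) (q : K) : ℕ → MonoidAlgebra K (B n)
  | 0 => 0
  | 1 => 0
  | 2 => q • br K n (σ n 1)⁻¹ + 1 - q • 1 - br K n (σ n 1)
  | (k + 3) => E n q (k + 2) * X n q (k + 2)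

/-- The defining relations of `Z_n`: `G_k X_k = F_k X_k` for `2 ≤ k ≤ n - 1`. -/
def rel (n : ℕ) (q : K) (a b : MonoidAlgebra K (B n)) : Prop :=
  ∃ k : ℕ, 2 ≤ k ∧ k + 1 ≤ n ∧ a = G n q k * X n q k ∧ b = F n q k * X n q k

/-- The algebra `Z_n`: the quotient of `K B_n` by the two-sided ideal generated by the elements
`(G_k - F_k) X_k`, `2 ≤ k ≤ n - 1`. -/
abbrev Z (n : ℕ) (q : K) : Type _ := RingQuot (rel n q)

/-- The quotient map `K B_n → Z_n`. -/
noncomputable def toZ (n : ℕ) (q : K) : MonoidAlgebra K (B n) →ₐ[K] Z n q :=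
  RingQuot.mkAlgHom K (rel n q)

/-! ### The permutation module -/

/-- The adjacent transposition. -/
def s (i : ℕ) : Equiv.Perm ℕ := Equiv.swap i (i + 1)

theorem s_inv (i : ℕ) : (s i)⁻¹ = s i := Equiv.swap_inv _ _

theorem s_apply (i x : ℕ) : s i x = if x = i then i + 1 else if x = i + 1 then i else x := by
  simp only [s, Equiv.swap_apply_def]

theorem s_comm {i j : ℕ} (h : i + 2 ≤ j) : s i * s j = s j * s i := by
  ext x
  simp only [Equiv.Perm.coe_mul, Function.comp_apply, s_apply]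
  split_ifs <;> omega

theorem s_braid (i : ℕ) : s i * s (i + 1) * s i = s (i + 1) * s i * s (i + 1) := by
  have a1 : s i i = i + 1 := by rw [s_apply]; split_ifs <;> omega
  have a2 : s i (i + 1) = i := by rw [s_apply]; split_ifs <;> omega
  have a3 : s i (i + 2) = i + 2 := by rw [s_apply]; split_ifs <;> omega
  have b1 : s (i + 1) i = i := by rw [s_apply]; split_ifs <;> omega
  have b2 : s (i + 1) (i + 1) = i + 2 := by rw [s_apply]; split_ifs <;> omega
  have b3 : s (i + 1) (i + 2) = i + 1 := by rw [s_apply]; split_ifs <;> omega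
  ext x
  simp only [Equiv.Perm.coe_mul, Function.comp_apply]
  by_cases h0 : x = i
  · rw [h0, a1, b2, a3, b1, a1, b2]
  · by_cases h1 : x = i + 1
    · rw [h1, a2, b1, a1, b2, a3, b3]
    · by_cases h2 : x = i + 2
      · rw [h2, a3, b3, a2, b1]
      · have e1 : s i x = x := by rw [s_apply, if_neg h0, if_neg h1]
        have e2 : s (i + 1) x = x := by rw [s_apply, if_neg h1, if_neg h2]
        rw [e1, e2, e1, e2]

/-- The map of the braid group to the symmetric group. -/
noncomputable def toPerm (n : ℕ) : B n →* Equiv.Perm ℕ :=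
  PresentedGroup.toGroup (f := fun i : Idx n => s i.1) (by
    intro r hr
    rcases hr with ⟨i, j, hij, rfl⟩ | ⟨i, j, hij, rfl⟩
    · simp only [map_mul, map_inv, FreeGroup.lift_apply_of]
      rw [mul_inv_eq_one]
      exact s_comm hij
    · simp only [map_mul, map_inv, FreeGroup.lift_apply_of]
      rw [mul_inv_eq_one, hij]
      exact s_braid _)

theorem toPerm_σ {n i : ℕ} (h1 : 1 ≤ i) (h2 : i + 1 ≤ n) : toPerm n (σ n i) = s i := by
  simp only [σ, h1, h2, and_self, dite_true, toPerm, PresentedGroup.toGroup.of]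

theorem prod_range' (i m : ℕ) (x : ℕ) :
    (((List.range' i (m + 1)).map s).prod : Equiv.Perm ℕ) x =
      if x = i + m + 1 then i else if i ≤ x ∧ x ≤ i + m then x + 1 else x := by
  induction m generalizing x with
  | zero =>
    simp only [zero_add, List.range'_one, List.map_cons, List.map_nil, List.prod_cons,
      List.prod_nil, mul_one, s_apply]
    split_ifs <;> omega
  | succ m ih =>
    rw [List.range'_concat, List.map_append, List.prod_append]
    simp only [List.map_cons, List.map_nil, List.prod_cons, List.prod_nil, mul_one,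
      Equiv.Perm.coe_mul, Function.comp_apply]
    rw [ih]
    simp only [s_apply]
    split_ifs <;> omega

theorem map_toPerm {n i m : ℕ} (h1 : 1 ≤ i) (h2 : i + m ≤ n) :
    (List.range' i m).map (fun j => toPerm n (σ n j)) = (List.range' i m).map s := by
  apply List.map_congr_left
  intro j hj
  rw [List.mem_range'_1] at hj
  exact toPerm_σ (by omega) (by omega)

theorem toPerm_up {n i j : ℕ} (h1 : 1 ≤ i) (hij : i ≤ j) (h2 : j + 1 ≤ n) (x : ℕ) :
    toPerm n (up n i j) x =
      if x = j + 1 then i else if i ≤ x ∧ x ≤ j then x + 1 else x := by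
  obtain ⟨m, rfl⟩ := Nat.exists_eq_add_of_le hij
  have e : i + m + 1 - i = m + 1 := by omega
  rw [up, map_list_prod, List.map_map, e]
  have := map_toPerm (n := n) (i := i) (m := m + 1) h1 (by omega)
  simp only [Function.comp_def]
  rw [this, prod_range']

theorem toPerm_down {n i j : ℕ} (h1 : 1 ≤ i) (hij : i ≤ j) (h2 : j + 1 ≤ n) :
    toPerm n (down n j i)⁻¹ = toPerm n (up n i j) := by
  rw [map_inv, down, up, map_list_prod, map_list_prod, List.map_map, List.map_map,
    List.prod_inv_reverse, List.map_reverse, List.map_reverse, List.reverse_reverse, List.map_map]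
  congr 1
  apply List.map_congr_left
  intro k hk
  rw [List.mem_range'_1] at hk
  simp only [Function.comp_apply]
  rw [toPerm_σ (by omega) (by omega), s_inv]

/-- The permutation representation of the symmetric group. -/
noncomputable def perm (K : Type*) [CommRing K] : Equiv.Perm ℕ →* Module.End K (ℕ →₀ K) where
  toFun g := Finsupp.lmapDomain K K g
  map_one' := by
    apply Finsupp.lhom_ext
    intro a b
    simp
  map_mul' g h := by
    apply Finsupp.lhom_ext
    intro a b
    simp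

/-- The permutation representation. -/
noncomputable def φ (K : Type*) [CommRing K] (n : ℕ) :
    MonoidAlgebra K (B n) →ₐ[K] Module.End K (ℕ →₀ K) :=
  MonoidAlgebra.lift K (Module.End K (ℕ →₀ K)) (B n) ((perm K).comp (toPerm n))

/-- The basis vectors. -/
noncomputable abbrev e (K : Type*) [CommRing K] (x : ℕ) : ℕ →₀ K := Finsupp.single x 1

theorem φ_br (n : ℕ) (g : B n) (x : ℕ) : φ K n (br K n g) (e K x) = e K (toPerm n g x) := by
  rw [φ, br, MonoidAlgebra.lift_of, MonoidHom.comp_apply]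
  simp [perm]

theorem φ_E {n j : ℕ} (q : K) (h1 : 1 ≤ j) (h2 : j + 1 ≤ n) (x : ℕ) :
    φ K n (E n q j) (e K x) = (q ^ j - 1) • e K (toPerm n (up n 1 j) x) := by
  rw [E, map_sub, map_smul, LinearMap.sub_apply, LinearMap.smul_apply, φ_br, φ_br,
    toPerm_down (le_refl 1) h1 h2, sub_smul, one_smul]

theorem φ_F {n k : ℕ} (q : K) (h1 : 1 ≤ k) (h2 : k + 1 ≤ n) (x : ℕ) :
    φ K n (F n q k) (e K x) = (q ^ (k - 1) - 1) • e K (toPerm n (up n 1 k) x) := by
  rw [F, map_sub, map_smul, LinearMap.sub_apply, LinearMap.smul_apply, φ_br, φ_br,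
    toPerm_down (le_refl 1) h1 h2, sub_smul, one_smul]

theorem φ_quad {n i : ℕ} (q : K) (h1 : 1 ≤ i) (h2 : i + 1 ≤ n) (x : ℕ) :
    φ K n (q • br K n (σ n i)⁻¹ + 1 - q • 1 - br K n (σ n i)) (e K x) =
      (q - 1) • (e K (s i x) - e K x) := by
  simp only [map_sub, map_add, map_smul, map_one, LinearMap.sub_apply, LinearMap.add_apply,
    LinearMap.smul_apply, Module.End.one_apply, φ_br, map_inv, toPerm_σ h1 h2, s_inv]
  module

theorem φ_X {n : ℕ} (q : K) (k : ℕ) (hk : k + 2 ≤ n) :
    ∃ c : K, (k = 1 → c = (q ^ 2 - 1) * (q - 1)) ∧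
      φ K n (X n q (k + 2)) (e K 1) = c • (e K (k + 2) - e K (k + 1)) ∧
      φ K n (X n q (k + 2)) (e K 2) = -(c • (e K (k + 2) - e K (k + 1))) ∧
      ∀ x, x ≠ 1 → x ≠ 2 → φ K n (X n q (k + 2)) (e K x) = 0 := by
  suffices H : ∃ c : K, (k = 0 → c = q - 1) ∧ (k = 1 → c = (q ^ 2 - 1) * (q - 1)) ∧
      φ K n (X n q (k + 2)) (e K 1) = c • (e K (k + 2) - e K (k + 1)) ∧
      φ K n (X n q (k + 2)) (e K 2) = -(c • (e K (k + 2) - e K (k + 1))) ∧
      ∀ x, x ≠ 1 → x ≠ 2 → φ K n (X n q (k + 2)) (e K x) = 0 by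
    obtain ⟨c, -, h⟩ := H
    exact ⟨c, h⟩
  induction k with
  | zero =>
    refine ⟨q - 1, fun _ => rfl, by omega, ?_, ?_, ?_⟩
    · rw [X, φ_quad q (le_refl 1) (by omega), s_apply]
      norm_num
    · rw [X, φ_quad q (le_refl 1) (by omega), s_apply]
      norm_num
      module
    · intro x hx1 hx2
      rw [X, φ_quad q (le_refl 1) (by omega), s_apply, if_neg hx1, if_neg hx2, sub_self, smul_zero]
  | succ k ih =>
    obtain ⟨c, h0, h1, ha, hb, hc⟩ := ih (by omega)
    have hE : φ K n (E n q (k + 2)) (e K (k + 2) - e K (k + 1)) =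
        (q ^ (k + 2) - 1) • (e K (k + 3) - e K (k + 2)) := by
      rw [map_sub, φ_E q (by omega) (by omega), φ_E q (by omega) (by omega),
        toPerm_up (le_refl 1) (by omega) (by omega), toPerm_up (le_refl 1) (by omega) (by omega),
        if_neg (by omega), if_pos (by omega), if_neg (by omega), if_pos (by omega), smul_sub]
    have e3 : k + 1 + 2 = k + 3 := by omega
    rw [e3]
    refine ⟨(q ^ (k + 2) - 1) * c, by omega, ?_, ?_, ?_, ?_⟩
    · intro hk1
      have : k = 0 := by omega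
      subst this
      rw [h0 rfl]
    · rw [X, map_mul, Module.End.mul_apply, ha, map_smul, hE]
      module
    · rw [X, map_mul, Module.End.mul_apply, hb, map_neg, map_smul, hE]
      module
    · intro x hx1 hx2
      rw [X, map_mul, Module.End.mul_apply, hc x hx1 hx2, map_zero]

theorem φ_G_sub {n k : ℕ} (q : K) (h1 : 2 ≤ k) (h2 : k + 1 ≤ n) :
    φ K n (G n q k) (e K k - e K (k - 1)) = φ K n (F n q k) (e K k - e K (k - 1)) := by
  rw [map_sub, map_sub, φ_F q (by omega) h2, φ_F q (by omega) h2,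
    toPerm_up (le_refl 1) (by omega) h2, toPerm_up (le_refl 1) (by omega) h2,
    if_neg (by omega), if_pos (by omega), if_neg (by omega), if_pos (by omega)]
  by_cases hk : k = 2
  · subst hk
    have e1 : s 2 2 = 2 + 1 := by rw [s_apply]; split_ifs <;> omega
    have e2 : s 2 (2 - 1) = 2 - 1 := by rw [s_apply]; split_ifs <;> omega
    rw [G, if_pos rfl, φ_quad q (by omega) h2, φ_quad q (by omega) h2, e1, e2]
    simp only [Nat.add_one_sub_one, Nat.reduceAdd, pow_one, sub_self, smul_zero,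
      sub_zero, smul_sub]
  · rw [G, if_neg hk, map_sub, map_smul, LinearMap.sub_apply, LinearMap.sub_apply,
      LinearMap.smul_apply, LinearMap.smul_apply, φ_br, φ_br, φ_br, φ_br,
      toPerm_down (by omega) (by omega) h2,
      toPerm_up (by omega) (by omega) h2, toPerm_up (by omega) (by omega) h2,
      if_neg (by omega), if_pos (by omega), if_neg (by omega), if_pos (by omega)]
    module

theorem φ_rel (n : ℕ) (q : K) {a b : MonoidAlgebra K (B n)} (h : rel n q a b) :
    φ K n a = φ K n b := by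
  obtain ⟨k, hk, hkn, rfl, rfl⟩ := h
  obtain ⟨m, rfl⟩ := Nat.exists_eq_add_of_le' hk
  obtain ⟨c, -, ha, hb, hc⟩ := φ_X (n := n) q m (by omega)
  have key := φ_G_sub q hk hkn
  have e1 : m + 2 - 1 = m + 1 := by omega
  rw [e1] at key
  apply Finsupp.lhom_ext'
  intro x
  apply LinearMap.ext_ring
  simp only [LinearMap.comp_apply, Finsupp.lsingle_apply, map_mul, Module.End.mul_apply]
  by_cases hx1 : x = 1
  · subst hx1
    rw [ha, map_smul, map_smul, key]
  · by_cases hx2 : x = 2
    · subst hx2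
      rw [hb, map_neg, map_neg, map_smul, map_smul, key]
    · rw [hc x hx1 hx2, map_zero, map_zero]

theorem X3_ne (n : ℕ) (hn : 3 ≤ n) (q : K) (hq : (q - 1) ^ 2 * (q + 1) ≠ 0) :
    toZ n q (X n q 3) ≠ 0 := by
  intro h
  have h2 : φ K n (X n q 3) = 0 := by
    have := congrArg (RingQuot.liftAlgHom K ⟨φ K n, fun {a b} hab => φ_rel n q hab⟩) h
    rw [toZ, RingQuot.liftAlgHom_mkAlgHom_apply, map_zero] at this
    exact this
  obtain ⟨c, h0, ha, -, -⟩ := φ_X (n := n) q 1 (by omega)
  rw [show 1 + 2 = 3 from rfl, h2, LinearMap.zero_apply] at ha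
  have h3 := congrArg (fun f : ℕ →₀ K => f 3) ha
  simp only [Finsupp.coe_zero, Pi.zero_apply, Finsupp.coe_smul, Finsupp.coe_sub, Pi.smul_apply,
    Pi.sub_apply, Finsupp.single_apply] at h3
  norm_num at h3
  apply hq
  rw [← h3.symm] at *
  have := h0 rfl
  rw [h3] at this
  linear_combination -this

/-- **`X_3 ≠ 0` in `Z_n` for every `n ≥ 3`**: with coefficients `ℤ[q, q⁻¹]`, the set of `n ≥ 3`
for which `X_3 = 0` in `Z_n` is empty; more generally the same holds with coefficients in any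
commutative ring `K` and any `q` with `(q - 1)² (q + 1) ≠ 0`. -/
theorem result :
    {n : ℕ | 3 ≤ n ∧
      toZ n (LaurentPolynomial.T 1 : LaurentPolynomial ℤ)
        (X n (LaurentPolynomial.T 1 : LaurentPolynomial ℤ) 3) = 0} = ∅ ∧
    ∀ (K : Type) [CommRing K] (q : K), (q - 1) ^ 2 * (q + 1) ≠ 0 →
      ∀ n : ℕ, 3 ≤ n → toZ n q (X n q 3) ≠ 0 := by
  refine ⟨?_, fun K _ q hq n hn => X3_ne n hn q hq⟩
  ext n
  simp only [Set.mem_ofPred_eq, Set.mem_empty_iff_false, iff_false, not_and]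
  intro hn
  refine X3_ne n hn _ fun h => ?_
  have h2 := congrArg (LaurentPolynomial.eval₂ (Int.castRingHom ℚ) (Units.mk0 (2 : ℚ) two_ne_zero)) h
  simp only [map_mul, map_pow, map_sub, map_add, map_one, map_zero, LaurentPolynomial.eval₂_T] at h2
  norm_num at h2

end Pool.Agent.Results.MP_2b4a1d_al.X3NeverZero
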